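import Pool.Agent.Helper5.BD.Defs

/-!
# Bounded degeneracy, module C10
-/

noncomputable section

open Finset Helper5.CR Classical

namespace Helper5.BD

variable {V E X : Type} [Fintype V] [Fintype E] [Fintype X] {C : CSys V E X} {d : ℕ}

/-- C10. -/
theorem sum_Fs (O : Ori C d) (B c : ℕ) (hR : O.Reroute B c) (t : ℝ)
    (hc : (1 - 8 * t ^ 2) * (Fintype.card X : ℝ) ≤ c) :
    ((∑ f ∈ O.Fs B, C.k f : ℕ) : ℝ) ≤ 32 * t ^ 2 * Fintype.card X := by
  -- choose the ways around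
  have hF : ∀ f ∈ O.Fs B, ∃ g h, O.tri f g h ∧
      4 * B * (C.k g + C.k h + O.deg (O.lo g)) ≤ C.k f := by
    intro f hf
    unfold Ori.Fs at hf
    rw [Finset.mem_filter] at hf
    exact hf.2
  have hF' : ∀ f : E, ∃ g h, f ∈ O.Fs B → O.tri f g h ∧
      4 * B * (C.k g + C.k h + O.deg (O.lo g)) ≤ C.k f := by
    intro f
    by_cases hf : f ∈ O.Fs B
    · obtain ⟨g, h, h1⟩ := hF f hf
      exact ⟨g, h, fun _ => h1⟩
    · exact ⟨f, f, fun h => absurd h hf⟩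
  choose g h hgh using hF'
  have h1 := hR (O.Fs B) g h fun f hf => (hgh f hf).1
  -- the cost of the ways around
  have h2 : 4 * (B * ∑ f ∈ O.Fs B, (C.k (g f) + C.k (h f) + O.deg (O.lo (g f)))) ≤
      ∑ f ∈ O.Fs B, C.k f := by
    rw [← mul_assoc, Finset.mul_sum]
    exact Finset.sum_le_sum fun f hf => (hgh f hf).2
  -- the crossings on the edges of the family
  have h3 := C.sum_k (O.Fs B)
  have h4 : ∑ f ∈ O.Fs B, C.k f ≤
      2 * (univ.filter fun x => ¬ (C.e₁ x ∉ O.Fs B ∧ C.e₂ x ∉ O.Fs B)).card := by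
    rw [h3, Finset.card_filter, Finset.mul_sum]
    refine Finset.sum_le_sum fun x _ => ?_
    by_cases a : C.e₁ x ∈ O.Fs B <;> by_cases b : C.e₂ x ∈ O.Fs B <;> simp [a, b]
  have h5 := Finset.card_filter_add_card_filter_not (s := (univ : Finset X))
    (fun x => C.e₁ x ∉ O.Fs B ∧ C.e₂ x ∉ O.Fs B)
  rw [Finset.card_univ] at h5
  have e1 : Ori.cnt (fun x => C.e₁ x ∉ O.Fs B ∧ C.e₂ x ∉ O.Fs B) =
      (univ.filter fun x => C.e₁ x ∉ O.Fs B ∧ C.e₂ x ∉ O.Fs B).card := by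
    unfold Ori.cnt
    refine congrArg Finset.card ?_
    ext x
    simp only [Finset.mem_filter]
  rw [e1] at h1
  generalize (univ.filter fun x => C.e₁ x ∉ O.Fs B ∧ C.e₂ x ∉ O.Fs B).card = a at h1 h5
  generalize (univ.filter fun x => ¬ (C.e₁ x ∉ O.Fs B ∧ C.e₂ x ∉ O.Fs B)).card = b at h4 h5
  generalize B * ∑ f ∈ O.Fs B, (C.k (g f) + C.k (h f) + O.deg (O.lo (g f))) = w at h1 h2
  generalize ∑ f ∈ O.Fs B, C.k f = s at h2 h4
  rw [← h5] at hc ⊢
  have q1 : (c : ℝ) ≤ a + w := by exact_mod_cast h1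
  have q2 : 4 * (w : ℝ) ≤ s := by exact_mod_cast h2
  have q4 : (s : ℝ) ≤ 2 * b := by exact_mod_cast h4
  push_cast at hc ⊢
  linarith

end Helper5.BD
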